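import Mathlib
import Pool.Agent.H821R2.Defs
import Pool.Agent.TH605.Pinch.Ex
set_option autoImplicit false
open Pool.Agent.H821R2

/-!
# The optimal pointwise pinching that forces a positive curvature operator

For every `d ≥ 4`, with `m = ⌊d/2⌋`,

`δ(d) = 2 (m - 1) / (2 m + 1) = 1 - 3 / (2 m + 1)`.

Here `δ(d) = pinchingConstant d` is the infimum of the `δ ∈ (0, 1]` such that every pointwise
`δ`-pinched Riemannian manifold of dimension `d` has positive curvature operator. The definitions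
are in `Pool/Agent/H821R2/Defs.lean`.

Proof. Upper bound: normal form `η = ∑ c_i u_i ∧ v_i` of a bivector and Berger's inequality
`|R(x,y,z,w)| ≤ (2/3) (K_max - K_min)` at the point. Lower bound: with a skew map `J` of rank `2m`,
`J² = -1` on its range, the curvature tensor whose sectional curvature is
`K(x, y) = 1 - (3/(2m+1)) ⟨Jx, y⟩²` is exactly `δ(d)`-pinched and its curvature operator kills
`∑ e_i ∧ J e_i`; it is the curvature tensor at the origin of the metric with inverse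
`g^{-1}(z) = 1 + (1/3) (|z|² - z zᵀ) - (1/(2m+1)) (Jz) (Jz)ᵀ`, and on a small ball around the origin
this metric is pointwise `δ`-pinched for any given `δ < δ(d)`.
-/

namespace Pool.Agent.Results.MP_c9e91a_gt.PinchingConstant

/-- **The value of `δ(d)`**: for `d ≥ 4` and `m = ⌊d/2⌋` the infimum of the `δ ∈ (0, 1]` such that
every pointwise `δ`-pinched Riemannian `d`-manifold has positive curvature operator is
`2 (m - 1) / (2 m + 1)`. -/
theorem result (d : ℕ) (hd : 4 ≤ d) :
    pinchingConstant d = 2 * (((d / 2 : ℕ) : ℝ) - 1) / (2 * ((d / 2 : ℕ) : ℝ) + 1) := by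
  obtain ⟨k, hk⟩ : ∃ k : ℝ, k = ((d / 2 : ℕ) : ℝ) := ⟨_, rfl⟩
  have hk2 : 2 ≤ k := by
    rw [hk]
    exact_mod_cast (by omega : 2 ≤ d / 2)
  have hden : 0 < 2 * k + 1 := by linarith
  rw [← hk]
  have hc0 : 0 < 2 * (k - 1) / (2 * k + 1) := div_pos (by linarith) hden
  have hc1 : 2 * (k - 1) / (2 * k + 1) < 1 := by
    rw [div_lt_one hden]
    linarith
  have hlow : ∀ δ ∈ {δ : ℝ | 0 < δ ∧ δ ≤ 1 ∧ Forces d δ}, 2 * (k - 1) / (2 * k + 1) ≤ δ := by
    rintro δ ⟨h0, -, hF⟩
    by_contra hlt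
    push Not at hlt
    refine Pool.Agent.TH605.Pinch.not_forces hd h0 ?_ hF
    rw [← hk]
    rw [lt_div_iff₀ hden] at hlt
    linarith
  have hup : ∀ δ : ℝ, 2 * (k - 1) / (2 * k + 1) < δ → δ ≤ 1 →
      δ ∈ {δ : ℝ | 0 < δ ∧ δ ≤ 1 ∧ Forces d δ} := by
    intro δ h1 h2
    refine ⟨hc0.trans h1, h2,
      Pool.Agent.TH605.Pinch.forces_of_lt (by omega) (hc0.trans h1) h2 ?_⟩
    rw [← hk]
    rw [div_lt_iff₀ hden] at h1
    linarith
  unfold pinchingConstant
  apply le_antisymm
  · refine le_of_forall_gt_imp_ge_of_dense fun δ hδ => ?_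
    have hbd : BddBelow {δ : ℝ | 0 < δ ∧ δ ≤ 1 ∧ Forces d δ} := ⟨_, hlow⟩
    rcases le_total δ 1 with h | h
    · exact csInf_le hbd (hup δ hδ h)
    · exact (csInf_le hbd (hup 1 hc1 le_rfl)).trans h
  · exact le_csInf ⟨1, hup 1 hc1 le_rfl⟩ hlow

end Pool.Agent.Results.MP_c9e91a_gt.PinchingConstant
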